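import Mathlib

open MvPolynomial Filter Topology Finset

namespace Pool.Agent.H.MP_7c460f_an

abbrev E := Fin 3 → ℂ
abbrev MP := MvPolynomial (Fin 3) ℂ

noncomputable def tr (w : E) : MP →ₐ[ℂ] MP := aeval fun i => X i + C (w i)

lemma eval_aev (z : E) (f : Fin 3 → MP) (P : MP) :
    eval z (aeval f P) = eval (fun i => eval z (f i)) P := by
  induction P using MvPolynomial.induction_on <;> simp_all

lemma eval_tr (w z : E) (P : MP) : eval z (tr w P) = eval (z + w) P := by
  rw [tr, eval_aev]; simp [Pi.add_def]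

lemma coeff_lt {P : MP} {β : Fin 3 →₀ ℕ} (h : P.totalDegree < β.degree) : coeff β P = 0 :=
  coeff_eq_zero_of_totalDegree_lt h

lemma coeff_tr (w : E) (P : MP) {β : Fin 3 →₀ ℕ} (hβ : P.totalDegree ≤ β.degree) :
    coeff β (tr w P) = coeff β P := by
  have key := induction_on_monomial (motive := fun p : MP => ∀ β : Fin 3 →₀ ℕ,
    p.totalDegree ≤ β.degree → coeff β (tr w p) = coeff β p) (fun a β _ => by simp [tr])
    fun p n ih β h => by
      rcases eq_or_ne p 0 with rfl | hp
      · simp
      rw [totalDegree_mul_of_isDomain hp (X_ne_zero _), totalDegree_X] at h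
      rw [map_mul, show tr w (X n) = X n + C (w n) by simp [tr], mul_add, coeff_add, mul_comm _ (C _),
        coeff_C_mul, ih β (by omega), coeff_lt (P := p) (by omega), coeff_mul_X', coeff_mul_X']
      split_ifs with hn
      · rw [ih, mul_zero, add_zero]
        have := congrArg Finsupp.degree (tsub_add_cancel_of_le (Finsupp.single_le_iff.2
          (Nat.one_le_iff_ne_zero.2 (Finsupp.mem_support_iff.1 hn))))
        rw [map_add, Finsupp.degree_single] at this
        omega
      · simp
  conv_rhs => rw [P.as_sum]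
  conv_lhs => rw [P.as_sum]
  rw [map_sum, coeff_sum, coeff_sum]
  exact sum_congr rfl fun α hα => key _ _ β
    ((totalDegree_monomial_le _ _).trans ((le_totalDegree hα).trans hβ))

lemma deg_lt {Q : MP} (h0 : Q ≠ 0) {d : ℕ} (h : ∀ β : Fin 3 →₀ ℕ, d ≤ β.degree → coeff β Q = 0) :
    Q.totalDegree < d := by
  obtain ⟨β, hβ, e⟩ := exists_mem_eq_sup Q.support (support_nonempty.2 h0) fun s => s.sum fun _ e => e
  by_contra! k
  exact mem_support_iff.1 hβ (h β (k.trans e.le))

lemma poly_zero {P : MP} (h : ∀ z : E, eval z P = 0) : P = 0 := MvPolynomial.funext (by simpa)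

lemma hurwitz {X : Type} [TopologicalSpace X] {G : X → ℂ → ℂ} (hG : Continuous G.uncurry)
    (hd : ∀ x, Differentiable ℂ (G x)) {x : X} (h0 : G x 0 = 0) {t : ℂ} (ht : G x t ≠ 0) {ε : ℝ}
    (hε : 0 < ε) : ∀ᶠ y in 𝓝 x, ∃ s, ‖s‖ ≤ ε ∧ G y s = 0 := by
  have an := (hd x).analyticAt
  have h1 : ∀ᶠ s in 𝓝[≠] 0, G x s ≠ 0 := (an 0).eventually_eq_zero_or_eventually_ne_zero.resolve_left
    fun h => ht (AnalyticOnNhd.eqOn_zero_of_preconnected_of_eventuallyEq_zero (U := Set.univ)
      (fun z _ => an z) isPreconnected_univ trivial h trivial)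
  obtain ⟨δ, δ0, hδ⟩ := Metric.eventually_nhds_iff.1 (eventually_nhdsWithin_iff.1 h1)
  have r0 : 0 < min ε (δ / 2) := by positivity
  filter_upwards [(isCompact_sphere (0 : ℂ) (min ε (δ / 2))).eventually_forall_of_forall_eventually
    (x₀ := x) (P := fun y s => ‖G y 0‖ < ‖G y s‖) fun s hs => by
      rw [mem_sphere_zero_iff_norm] at hs
      refine ContinuousAt.eventually_lt (f := fun p : X × ℂ => ‖G p.1 0‖)
        (hG.comp (continuous_fst.prodMk continuous_const)).norm.continuousAt hG.norm.continuousAt ?_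
      simpa [h0] using hδ (y := s) (by simp [hs, δ0]) (by rintro rfl; exact r0.ne (by simpa using hs))] with y hy
  by_contra! k
  obtain ⟨s, hs, m⟩ := Complex.exists_mem_frontier_isMaxOn_norm (f := fun s => (G y s)⁻¹)
    (Metric.isBounded_ball (x := 0) (r := min ε (δ / 2))) ⟨0, Metric.mem_ball_self r0⟩
    (DifferentiableOn.diffContOnCl ((hd y).differentiableOn.inv fun s hs => k s
      ((mem_closedBall_zero_iff.1 (Metric.closure_ball_subset_closedBall hs)).trans (min_le_left _ _))))
  rw [frontier_ball _ r0.ne'] at hs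
  have := m (subset_closure (Metric.mem_ball_self r0))
  simp only [Function.comp, Set.mem_ofPred_eq, norm_inv] at this
  exact this.not_gt (inv_strictAnti₀ (norm_pos_iff.2 (k 0 (by simpa using hε.le))) (hy s hs))

noncomputable def grad (P : MP) (z : E) : E →L[ℂ] ℂ :=
  ∑ i, eval z (pderiv i P) • ContinuousLinearMap.proj i

lemma grad_apply (P : MP) (z v : E) : grad P z v = ∑ i, eval z (pderiv i P) * v i := by
  simp [grad]

lemma hasD (P : MP) (z : E) : HasStrictFDerivAt (fun z => eval z P) (grad P z) z := by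
  induction P using MvPolynomial.induction_on with
  | C a =>
    simp only [eval_C]
    exact (hasStrictFDerivAt_const (𝕜 := ℂ) a z).congr_fderiv
      (ContinuousLinearMap.ext fun v => by simp [grad_apply])
  | add p q hp hq =>
    simp only [map_add]
    refine (hp.add hq).congr_fderiv (ContinuousLinearMap.ext fun v => ?_)
    simp [grad_apply, add_mul, sum_add_distrib]
  | mul_X p n hp =>
    simp only [map_mul, eval_X]
    refine (hp.mul (hasStrictFDerivAt_apply (𝕜 := ℂ) n z)).congr_fderiv
      (ContinuousLinearMap.ext fun v => ?_)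
    simp [grad_apply, add_mul, sum_add_distrib, mul_sum, mul_assoc, pderiv_X, Pi.single_apply,
      apply_ite (eval z), add_comm]

lemma diff (P : MP) : Differentiable ℂ fun z : E => eval z P := fun z =>
  (hasD P z).hasFDerivAt.differentiableAt

lemma approx {κ : Type} [Fintype κ] (B : κ → MP) {c : κ → ℂ} (h0 : ∑ j, c j • B j ≠ 0) {z : E}
    (hz : eval z (∑ j, c j • B j) = 0) {U : Set E} (hU : U ∈ 𝓝 z) :
    ∀ᶠ c' in 𝓝 c, ∃ y ∈ U, eval y (∑ j, c' j • B j) = 0 := by
  obtain ⟨x, hx⟩ := not_forall.1 (mt poly_zero h0)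
  have ct : Continuous fun s : ℂ => z + s • (x - z) := by fun_prop
  obtain ⟨ε, ε0, hε⟩ := Metric.nhds_basis_closedBall.eventually_iff.1
    ((ct.tendsto' 0 z (by simp)).eventually hU)
  have := hurwitz (G := fun (c : κ → ℂ) s => eval (z + s • (x - z)) (∑ j, c j • B j)) (x := c) (t := 1)
    (by
      simp only [map_sum, smul_eval, Function.uncurry_def]
      exact continuous_finsetSum _ fun j _ => ((continuous_apply j).comp continuous_fst).mul
        ((diff _).continuous.comp (ct.comp continuous_snd)))
    (fun c => (diff _).comp (by fun_prop)) (by simpa using hz) (by simpa using hx) ε0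
  exact this.mono fun c' ⟨s, h1, h2⟩ => ⟨_, hε (mem_closedBall_zero_iff.2 h1), h2⟩

noncomputable def line (z e : E) : MP →ₐ[ℂ] Polynomial ℂ :=
  aeval fun i => Polynomial.C (z i) + Polynomial.C (e i) * Polynomial.X

lemma eval_line (z e : E) (P : MP) (t : ℂ) : (line z e P).eval t = eval (z + t • e) P := by
  induction P using MvPolynomial.induction_on with
  | C a => simp [line]
  | add p q hp hq => simp [hp, hq]
  | mul_X p n hp => rw [map_mul, Polynomial.eval_mul, hp]; simp [line, mul_comm t]

lemma deg_line (z e : E) (P : MP) : (line z e P).natDegree ≤ P.totalDegree := by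
  refine (aeval_natDegree_le P le_rfl _ (n := 1) fun i => ?_).trans (by simp)
  compute_degree

lemma invar {P : MP} {w : ℕ → E} {r : ℕ → ℂ} {a : E} (hr : Tendsto r atTop (𝓝 0))
    (ha : Tendsto (fun m => r m • w m) atTop (𝓝 a)) {κ : Type} [Fintype κ] (v : κ → E)
    {c : ℕ → κ → ℂ} (hc : ∀ m, tr (w m) P = ∑ j, c m j • tr (v j) P)
    (hb : ∀ j, (fun m => c m j) =O[atTop] (1 : ℕ → ℝ)) (z : E) (s : ℂ) :
    eval (z + s • a) P = eval z P := by
  have b (k : ℕ) : ∀ z, (fun m => eval (z + (k : ℂ) • w m) P) =O[atTop] (1 : ℕ → ℝ) := by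
    induction k with
    | zero => 
      simp only [Nat.cast_zero, zero_smul, add_zero]
      exact fun z => Asymptotics.isBigO_const_one ℝ _ _
    | succ k ih =>
      intro z
      have := Asymptotics.IsBigO.sum (s := univ) fun j _ => (hb j).mul (ih (z + v j))
      refine this.congr (fun m => ?_) (by simp)
      rw [Nat.cast_succ, add_smul, one_smul, ← add_assoc, ← eval_tr, hc, map_sum]
      simp [eval_tr, add_right_comm]
  have e (m) (t : ℂ) : eval (z + t • w m) P = ∑ k ∈ range (P.totalDegree + 1),
      eval (z + (k : ℂ) • w m) P * (Lagrange.basis (range (P.totalDegree + 1)) Nat.cast k).eval t := by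
    rw [← eval_line, Lagrange.eq_interpolate (f := line z (w m) P) (s := range (P.totalDegree + 1))
      (v := Nat.cast) Nat.cast_injective.injOn (Polynomial.degree_le_natDegree.trans_lt (by
        rw [card_range]; exact_mod_cast Nat.lt_succ_of_le (deg_line _ _ _))), Lagrange.interpolate_apply,
      Polynomial.eval_finsetSum]
    simp [eval_line]
  have t1 : Tendsto (fun m => eval (z + (s * r m) • w m) P - eval z P) atTop (𝓝 0) := by
    have := tendsto_finsetSum (range (P.totalDegree + 1)) fun k _ =>
      (Asymptotics.isLittleO_one_iff ℝ).1 (((b k z).mul_isLittleO ((Asymptotics.isLittleO_one_iff ℝ).2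
        (tendsto_sub_nhds_zero_iff.2 (((Lagrange.basis (range (P.totalDegree + 1)) Nat.cast
          k).continuous.tendsto _).comp (hr.const_mul s))))).congr_right (by simp))
    rw [sum_const_zero] at this
    refine this.congr fun m => ?_
    have e0 := e m 0
    rw [zero_smul, add_zero] at e0
    rw [e, e0, ← sum_sub_distrib]
    simp [mul_sub]
  have t2 := (((diff P).continuous.tendsto _).comp ((ha.const_smul s).const_add z)).sub_const (eval z P)
  exact sub_eq_zero.1 (tendsto_nhds_unique t2 (t1.congr fun m => by simp [mul_smul]))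

end Pool.Agent.H.MP_7c460f_an
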