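import Pool.Agent.H.MP_7c460f_an.A

open MvPolynomial Filter Topology Finset

namespace Pool.Agent.H.MP_7c460f_an

lemma height3 (x : E) : 3 ≤ (vanishingIdeal ℂ {x}).height := by
  let φ (k : ℕ) : MP →ₐ[ℂ] MP := aeval fun i => if i.1 < k then C (x i) else X i
  have pr (k) : (RingHom.ker (φ k)).IsPrime := RingHom.ker_isPrime _
  have lt (k : Fin 3) : RingHom.ker (φ k) < RingHom.ker (φ (k + 1)) := by
    have e : (φ (k + 1)).comp (φ k) = φ (k + 1) := by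
      ext1 i
      by_cases h : i < k
      · simp [φ, h, h.le]
      · simp [φ, h]
    refine SetLike.lt_iff_le_and_exists.2 ⟨fun p hp => ?_, X k - C (x k), by simp [φ], ?_⟩
    · rw [RingHom.mem_ker] at *
      rw [← e, AlgHom.comp_apply, hp, map_zero]
    · simpa [φ, sub_eq_zero] using fun h => by simpa using congrArg (eval fun _ => x k + 1) h
  have le : RingHom.ker (φ 3) ≤ vanishingIdeal ℂ {x} := fun p hp => by
    have := congrArg (eval x) (RingHom.mem_ker.1 hp)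
    rw [eval_aev] at this
    simpa [mem_vanishingIdeal_singleton_iff] using this
  have a0 := Ideal.height_add_one_le_of_lt_of_isPrime (lt 0)
  have a1 := Ideal.height_add_one_le_of_lt_of_isPrime (lt 1)
  have a2 := Ideal.height_add_one_le_of_lt_of_isPrime (lt 2)
  refine le_trans ?_ (a2.trans (Ideal.height_mono le))
  refine le_trans ?_ (add_le_add (le_trans (add_le_add a0 le_rfl) a1) le_rfl)
  rw [add_assoc, add_assoc]
  exact le_add_self

lemma unbdd {P Q : MP} {z : E} (hP : eval z P = 0) (hQ : eval z Q = 0) (R : ℝ) :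
    ∃ w : E, R < ‖w‖ ∧ eval w P = 0 ∧ eval w Q = 0 := by
  classical
  have le : Ideal.span (({P, Q} : Finset MP) : Set MP) ≤ vanishingIdeal ℂ {z} :=
    Ideal.span_le.2 (by simp [Set.insert_subset_iff, hP, hQ])
  obtain ⟨p, hp, -⟩ := Ideal.exists_minimalPrimes_le le
  have := hp.isPrime
  have h2 : p.height ≤ 2 := (Ideal.height_le_card_of_mem_minimalPrimes_span_finset hp).trans
    (by exact_mod_cast card_le_two)
  obtain ⟨s, -, g, inj, int⟩ := exists_integral_inj_algHom_of_quotient p this.ne_top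
  algebraize [g.toRingHom]
  cases s with
  | zero =>
    obtain ⟨x, rfl⟩ := isMaximal_iff_eq_vanishingIdeal_singleton.1 (Ideal.Quotient.maximal_of_isField p
      (isField_of_isIntegral_of_isField' (R := MvPolynomial (Fin 0) ℂ)
        ((isEmptyRingEquiv ℂ (Fin 0)).toMulEquiv.isField (Field.toIsField ℂ))))
    exact absurd ((height3 x).trans h2) (by decide)
  | succ s =>
    obtain ⟨T, hT⟩ := Ideal.Quotient.mk_surjective (g (X 0))
    obtain ⟨B, hB⟩ := (isCompact_closedBall (0 : E) R).exists_bound_of_continuousOn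
      (diff T).continuous.continuousOn
    obtain ⟨M, hM, e⟩ := Ideal.exists_ideal_over_maximal_of_isIntegral (S := MP ⧸ p)
      (vanishingIdeal ℂ {fun _ : Fin (s + 1) => ((|B| + 1 : ℝ) : ℂ)})
      (((RingHom.injective_iff_ker_eq_bot _).1 inj).le.trans bot_le)
    obtain ⟨w, hw⟩ := isMaximal_iff_eq_vanishingIdeal_singleton.1
      (Ideal.comap_isMaximal_of_surjective (Ideal.Quotient.mk p) Ideal.Quotient.mk_surjective (K := M))
    have k (U : MP) (h : Ideal.Quotient.mk p U ∈ M) : eval w U = 0 :=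
      (mem_vanishingIdeal_singleton_iff w U).1 (hw ▸ h)
    have k2 (U) (h : U ∈ ({P, Q} : Finset MP)) := k U (by
      rw [Ideal.Quotient.eq_zero_iff_mem.2 (hp.le (Ideal.subset_span h))]; exact M.zero_mem)
    refine ⟨w, ?_, k2 P (by simp), k2 Q (by simp)⟩
    have : X 0 - C ((|B| + 1 : ℝ) : ℂ) ∈ M.comap (algebraMap (MvPolynomial (Fin (s + 1)) ℂ) _) := by
      rw [e]; simp
    have := k (T - C ((|B| + 1 : ℝ) : ℂ)) (by
      rw [map_sub, hT]
      convert Ideal.mem_comap.1 this using 1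
      exact (map_sub g _ _).symm ▸ congrArg _ (g.commutes _).symm)
    rw [map_sub, eval_C, sub_eq_zero] at this
    by_contra! h
    have := this ▸ hB w (mem_closedBall_zero_iff.2 h)
    rw [Complex.norm_real, Real.norm_of_nonneg (by positivity)] at this
    linarith [le_abs_self B]

lemma normalize {κ : Type} [Fintype κ] {c : ℕ → κ → ℂ} (hc : ∀ m, c m ≠ 0) : ∃ σ : ℕ → ℕ, StrictMono σ ∧
    ∃ c' ≠ 0, ∃ ρ, Tendsto (fun m => ((‖c (σ m)‖ : ℂ))⁻¹ • c (σ m)) atTop (𝓝 c') ∧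
      Tendsto (fun m => (1 + ‖c (σ m)‖)⁻¹) atTop (𝓝 ρ) := by
  obtain ⟨⟨c', ρ⟩, h, σ, h1, h2⟩ := ((isCompact_sphere (0 : κ → ℂ) 1).prod
    (isCompact_Icc (a := (0 : ℝ)) (b := 1))).tendsto_subseq
    (x := fun m => (((‖c m‖ : ℂ))⁻¹ • c m, (1 + ‖c m‖)⁻¹)) fun m => ⟨by simp [norm_smul, hc m],
      by positivity, inv_le_one_of_one_le₀ (by simp)⟩
  exact ⟨σ, h1, c', fun e => by simpa [e] using h.1, ρ, h2.fst_nhds, h2.snd_nhds⟩

lemma seq_of {A : ℕ → Set E} {z : E} (h : ∀ U ∈ 𝓝 z, ∀ᶠ m in atTop, ∃ y ∈ U, y ∈ A m) :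
    ∃ y : ℕ → E, Tendsto y atTop (𝓝 z) ∧ ∀ᶠ m in atTop, y m ∈ A m := by
  have (m : ℕ) : ∃ y, (A m).Nonempty → y ∈ A m ∧ dist z y < Metric.infDist z (A m) + 1 / (m + 1) := by
    by_cases k : (A m).Nonempty
    · exact ((Metric.infDist_lt_iff k).1 (lt_add_of_pos_right _ (by positivity))).imp fun _ h _ => h
    · exact ⟨z, fun h => absurd h k⟩
  choose y hy using this
  refine ⟨y, Metric.tendsto_nhds.2 fun ε hε => ?_,
    (h _ univ_mem).mono fun m ⟨x, _, hx⟩ => (hy m ⟨x, hx⟩).1⟩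
  filter_upwards [h _ (Metric.ball_mem_nhds z (half_pos hε)),
    tendsto_one_div_add_atTop_nhds_zero_nat.eventually (gt_mem_nhds (half_pos hε))] with m ⟨x, h1, h2⟩ h3
  linarith [(hy m ⟨x, h2⟩).2, Metric.infDist_le_dist_of_mem (x := z) h2, Metric.mem_ball'.1 h1,
    dist_comm z (y m)]

def Dep (G : E → ℂ) (n : ℕ) (A B : Set E) : Prop := ∀ u : Fin (n + 1) → E, (∀ k, u k ∈ A) →
  ∃ c : Fin (n + 1) → ℂ, c ≠ 0 ∧ ∀ v ∈ B, ∑ k, c k * G (u k + v) = 0

lemma dep_lim {N : ℕ} {B : Type} {φ : ℕ → Fin N → B → ℂ} {ψ : Fin N → B → ℂ} {c : ℕ → Fin N → ℂ}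
    (hc : ∀ m, c m ≠ 0) (h : ∀ v, ∀ᶠ m in atTop, ∑ k, c m k * φ m k v = 0)
    (hφ : ∀ k v, Tendsto (fun m => φ m k v) atTop (𝓝 (ψ k v))) :
    ∃ c : Fin N → ℂ, c ≠ 0 ∧ ∀ v, ∑ k, c k * ψ k v = 0 := by
  obtain ⟨σ, h1, c', h2, -, h3, -⟩ := normalize hc
  refine ⟨c', h2, fun v => tendsto_nhds_unique (tendsto_finsetSum _ fun k _ =>
    (tendsto_pi_nhds.1 h3 k).mul ((hφ k v).comp h1.tendsto_atTop)) (tendsto_const_nhds.congr'
      ((h1.tendsto_atTop.eventually (h v)).mono fun m hm => ?_))⟩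
  simp [mul_assoc, ← mul_sum, hm]

lemma Dep.lim {G : E → ℂ} (hG : Continuous G) {n : ℕ} {A B : ℕ → Set E} {A' B' : Set E}
    (h : ∀ m, Dep G n (A m) (B m)) (hA : ∀ z ∈ A', ∀ U ∈ 𝓝 z, ∀ᶠ m in atTop, ∃ y ∈ U, y ∈ A m)
    (hB : ∀ z ∈ B', ∀ U ∈ 𝓝 z, ∀ᶠ m in atTop, ∃ y ∈ U, y ∈ B m) : Dep G n A' B' := by
  intro u hu
  choose x h1 h2 using fun k => seq_of (hA _ (hu k))
  choose y h3 h4 using fun v : B' => seq_of (hB _ v.2)
  have (m : ℕ) : ∃ c : Fin (n + 1) → ℂ, c ≠ 0 ∧ ((∀ k, x k m ∈ A m) →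
      ∀ v ∈ B m, ∑ k, c k * G (x k m + v) = 0) := by
    by_cases k : ∀ k, x k m ∈ A m
    · exact (h m _ k).imp fun c hc => ⟨hc.1, fun _ => hc.2⟩
    · exact ⟨1, one_ne_zero, fun h => absurd h k⟩
  choose c h5 h6 using this
  obtain ⟨c', k1, k2⟩ := dep_lim (φ := fun m k v => G (x k m + y v m)) h5
    (fun v => ((eventually_all.2 h2).and (h4 v)).mono fun m hm => h6 m hm.1 _ hm.2)
    fun k v => (hG.tendsto _).comp ((h1 k).add (h3 v))
  exact ⟨c', k1, fun v hv => k2 ⟨v, hv⟩⟩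

def V (P : MP) : Set E := {z | eval z P = 0}

lemma lim {P : MP} (h0 : P ≠ 0) {w : ℕ → E} (hw : ∀ m, w m ∈ V P) {r : ℕ → ℂ} {a : E}
    (hr : Tendsto r atTop (𝓝 0)) (ha : Tendsto (fun m => r m • w m) atTop (𝓝 a)) :
    ∃ σ : ℕ → ℕ, StrictMono σ ∧ ∃ Q : MP, Q ≠ 0 ∧ 0 ∈ V Q ∧
      (∀ z ∈ V Q, ∀ U ∈ 𝓝 z, ∀ᶠ m in atTop, ∃ y ∈ U, y + w (σ m) ∈ V P) ∧
      Q.totalDegree ≤ P.totalDegree ∧ (Q.totalDegree < P.totalDegree ∨
        ∀ z (s : ℂ), eval (z + s • a) P = eval z P) := by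
  obtain ⟨κ, v, -, hs, hl⟩ := exists_linearIndependent' ℂ fun v => tr v P
  have dg (v) (β : Fin 3 →₀ ℕ) (h : P.totalDegree + 1 ≤ β.degree) : coeff β (tr v P) = 0 :=
    (coeff_tr v P (by omega)).trans (coeff_lt h)
  have n0 (v) : tr v P ≠ 0 := fun h => h0 (poly_zero fun z => by
    simpa [eval_tr] using congrArg (eval (z - v)) h)
  have : Finite κ := by
    let u (j : κ) : restrictTotalDegree (Fin 3) ℂ P.totalDegree := ⟨tr (v j) P,
      (mem_restrictTotalDegree _ _ _).2 (Nat.lt_succ_iff.1 (deg_lt (n0 (v j)) (dg (v j))))⟩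
    have : LinearIndependent ℂ u := .of_comp (Submodule.subtype _) hl
    exact this.finite_of_isNoetherian
  have := Fintype.ofFinite κ
  have (m : ℕ) : ∃ c : κ → ℂ, ∑ j, c j • tr (v j) P = tr (w m) P :=
    (Submodule.mem_span_range_iff_exists_fun ℂ).1 (hs.ge (Submodule.subset_span ⟨w m, rfl⟩))
  choose c hc using this
  have c0 (m) : c m ≠ 0 := fun h => n0 (w m) (by simp [← hc, h])
  obtain ⟨σ, h1, c', h2, ρ, h3, h4⟩ := normalize c0
  have Q0 : ∑ j, c' j • tr (v j) P ≠ 0 := fun h =>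
    h2 (funext (Fintype.linearIndependent_iff.1 hl c' h))
  have e (m) : ∑ j, (((‖c m‖ : ℂ))⁻¹ • c m) j • tr (v j) P = ((‖c m‖ : ℂ))⁻¹ • tr (w m) P := by
    simp [← hc, smul_sum, mul_smul]
  have li (f : MP →ₗ[ℂ] ℂ) : Tendsto (fun m => ((‖c (σ m)‖ : ℂ))⁻¹ * f (tr (w (σ m)) P)) atTop
      (𝓝 (f (∑ j, c' j • tr (v j) P))) := by
    simp only [← smul_eq_mul, ← map_smul, ← e, map_sum]
    simp only [map_smul]
    exact tendsto_finsetSum _ fun j _ => (tendsto_pi_nhds.1 h3 j).smul_const _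
  refine ⟨σ, h1, _, Q0, ?_, fun z hz U hU => (h3.eventually (approx _ Q0 hz hU)).mono
    fun m ⟨y, k1, k2⟩ => ⟨y, k1, ?_⟩, Nat.lt_succ_iff.1 (deg_lt Q0 fun β h => by
      simp [coeff_sum, dg _ β h]), ?_⟩
  · refine tendsto_nhds_unique (li (aeval (0 : E)).toLinearMap) (tendsto_const_nhds.congr fun m => ?_)
    change 0 = _ * eval 0 _
    rw [eval_tr, zero_add, hw, mul_zero]
  · rw [e, smul_eval, eval_tr] at k2
    simpa [c0, V] using k2
  rcases eq_or_ne ρ 0 with rfl | hρ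
  · refine .inl (deg_lt Q0 fun β h => tendsto_nhds_unique (li (lcoeff ℂ β)) ?_)
    simp only [lcoeff_apply, coeff_tr _ _ h]
    rw [← zero_mul (coeff β P)]
    refine Tendsto.mul_const _ ?_
    have := (tendsto_inv_atTop_zero.comp (tendsto_atTop_add_const_left _ (-1)
      (tendsto_inv_nhdsGT_zero.comp (tendsto_nhdsWithin_iff.2
        ⟨h4, .of_forall fun m => Set.mem_Ioi.2 (by positivity)⟩)))).ofReal
    simpa [Function.comp_def] using this
  · refine .inr (invar (hr.comp h1.tendsto_atTop) (ha.comp h1.tendsto_atTop) v (fun m => (hc _).symm)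
      fun j => .trans (.of_norm_le fun m => ?_) ((h4.inv₀ hρ).isBigO_one ℝ))
    rw [inv_inv]
    exact (norm_le_pi_norm _ j).trans (by simp)

end Pool.Agent.H.MP_7c460f_an
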