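import Pool.Agent.H.MP_7c460f_an.B

open MvPolynomial Filter Topology Finset

namespace Pool.Agent.H.MP_7c460f_an

lemma red {P : MP} (h0 : P ≠ 0) (hz : 0 ∈ V P) (h : ¬ Irreducible P) :
    ∃ Q : MP, Q ≠ 0 ∧ 0 ∈ V Q ∧ Q.totalDegree < P.totalDegree ∧ V Q ⊆ V P := by
  have key (A B : MP) (h0 : A * B ≠ 0) (hA : 0 ∈ V A) (hB : ¬ IsUnit B) :
      ∃ Q : MP, Q ≠ 0 ∧ 0 ∈ V Q ∧ Q.totalDegree < (A * B).totalDegree ∧ V Q ⊆ V (A * B) := by
    refine ⟨A, left_ne_zero_of_mul h0, hA, ?_, fun z (hz : eval z A = 0) => by simp [V, hz]⟩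
    rw [totalDegree_mul_of_isDomain (left_ne_zero_of_mul h0) (right_ne_zero_of_mul h0)]
    refine lt_add_of_pos_right _ (Nat.pos_of_ne_zero fun e => hB ?_)
    rw [totalDegree_eq_zero_iff_eq_C] at e
    rw [e]
    exact (IsUnit.mk0 _ fun k => right_ne_zero_of_mul h0 (by rw [e, k, C_0])).map C
  obtain ⟨A, B, hA, hB, rfl⟩ := (irreducible_or_factor fun k : IsUnit P =>
    (k.map (eval (0 : E))).ne_zero hz).resolve_left h
  rcases mul_eq_zero.1 ((map_mul _ _ _).symm.trans hz) with k | k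
  · exact key A B h0 k hB
  · rw [mul_comm] at *
    exact key B A h0 k hA

lemma divz {P : MP} (h : Irreducible P) {b : E} (hb : ∀ u ∈ V P, grad P u b = 0) (z : E) (s : ℂ) :
    eval (z + s • b) P = eval z P := by
  have pr := (Ideal.span_singleton_prime h.ne_zero).2 h.prime
  have e (u : E) : eval u (∑ i, pderiv i P * C (b i)) = grad P u b := by simp [grad_apply]
  have z0 : ∑ i, pderiv i P * C (b i) = 0 := by
    by_contra k
    have : ∑ i, pderiv i P * C (b i) ∈ vanishingIdeal ℂ (zeroLocus ℂ (Ideal.span {P})) :=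
      fun u hu => (e u).trans (hb u (hu P (Ideal.mem_span_singleton_self P)))
    rw [IsPrime.vanishingIdeal_zeroLocus, Ideal.mem_span_singleton] at this
    refine (totalDegree_le_of_dvd_of_isDomain this k).not_gt (deg_lt k fun β hβ => ?_)
    rw [coeff_sum]
    refine sum_eq_zero fun i _ => ?_
    rw [mul_comm, coeff_C_mul, coeff_pderiv, coeff_lt (by rw [map_add]; simp; omega)]
    simp
  have d (s : ℂ) : HasDerivAt (fun s : ℂ => eval (z + s • b) P) 0 s := by
    have := (hasD P (z + s • b)).hasFDerivAt.comp_hasDerivAt s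
      (((hasDerivAt_id s).smul_const b).const_add z)
    rwa [one_smul, ← e, z0, map_zero] at this
  simpa using is_const_of_deriv_eq_zero (fun s => (d s).differentiableAt) (fun s => (d s).deriv) s 0

lemma opn {P Q : MP} {u v : E} (hu : u ∈ V P) (hv : v ∈ V Q)
    (h : LinearIndependent ℂ ![fun i => eval u (pderiv i P), fun i => eval v (pderiv i Q)])
    {U W : Set E} (hU : U ∈ 𝓝 u) (hW : W ∈ 𝓝 v) :
    ∀ᶠ z in 𝓝 (u + v), ∃ x ∈ U ∩ V P, ∃ y ∈ W ∩ V Q, x + y = z := by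
  have f := hasStrictFDerivAt_fst (𝕜 := ℂ) (p := (u, v))
  have s := hasStrictFDerivAt_snd (𝕜 := ℂ) (p := (u, v))
  have D := (((hasD P u).comp (u, v) f).prodMk ((hasD Q v).comp (u, v) s)).prodMk (f.add s)
  have sj (α β : ℂ) : ∃ x, grad P u x = α ∧ grad Q v x = β := by
    obtain ⟨x, hx⟩ := (Submodule.mem_span_range_iff_exists_fun ℂ).1
      ((span_flip_eq_top_iff_linearIndependent.2 h).ge (Submodule.mem_top (x := ![α, β])))
    exact ⟨x, by simpa [grad_apply, flip, mul_comm] using congrFun hx 0,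
      by simpa [grad_apply, flip, mul_comm] using congrFun hx 1⟩
  have := D.map_nhds_eq_of_surj (LinearMap.range_eq_top.2 fun ⟨⟨α, β⟩, η⟩ => by
    obtain ⟨x, h1, h2⟩ := sj α (grad Q v η - β)
    exact ⟨(x, η - x), by simp [h1, h2]⟩)
  have m := this ▸ image_mem_map (prod_mem_nhds hU hW)
  have t : Tendsto (fun z : E => (((0 : ℂ), (0 : ℂ)), z)) (𝓝 (u + v))
      (𝓝 ((eval u P, eval v Q), u + v)) := by
    rw [hu, hv]; exact (Continuous.prodMk_right _).tendsto _
  filter_upwards [t m] with z ⟨⟨x, y⟩, h1, h2⟩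
  simp only [Prod.mk.injEq] at h2
  exact ⟨x, ⟨h1.1, h2.1.1⟩, y, ⟨h1.2, h2.1.2⟩, h2.2⟩

lemma recur {G : E → ℂ} {n : ℕ} {A B : Set E} (h : Dep G n A B) {a : E} (hA : ∀ u ∈ A, u + a ∈ A)
    (hB : ∀ u ∈ B, u + a ∈ B) : ∃ q : Polynomial ℂ, q ≠ 0 ∧ ∀ u ∈ A, ∀ v ∈ B,
      ∑ k ∈ range (q.natDegree + 1), q.coeff k * G (u + v + k • a) = 0 := by
  let K : A → B → ℂ := fun u v => G (u + v)
  obtain ⟨κ, e, -, hs, hl⟩ := exists_linearIndependent' ℂ K
  have : Finite κ := by
    by_contra k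
    have := not_finite_iff_infinite.1 k
    let ι := Fin.valEmbedding (n := n + 1) |>.trans (Infinite.natEmbedding κ)
    obtain ⟨c, c0, hc⟩ := h (fun k => e (ι k)) fun k => (e (ι k)).2
    exact c0 (funext (Fintype.linearIndependent_iff.1 (hl.comp ι ι.injective) c
      (funext fun v => by simpa using hc v v.2)))
  have : Module.Finite ℂ (Submodule.span ℂ (Set.range K)) :=
    hs ▸ Module.Finite.span_of_finite ℂ (Set.finite_range _)
  let τ : Module.End ℂ (B → ℂ) := LinearMap.funLeft ℂ ℂ fun v => ⟨v + a, hB v v.2⟩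
  have e1 (u : A) : τ (K u) = K ⟨u + a, hA u u.2⟩ := funext fun v => congrArg G (by simp; ring)
  have inv : ∀ x ∈ Submodule.span ℂ (Set.range K), τ x ∈ Submodule.span ℂ (Set.range K) :=
    fun x hx => Submodule.map_span_le τ _ _ |>.2 (by
      rintro _ ⟨u, rfl⟩; exact Submodule.subset_span ⟨_, (e1 u).symm⟩) (Submodule.mem_map_of_mem hx)
  obtain ⟨q, hq, e2⟩ := IsIntegral.of_finite ℂ (τ.restrict inv : Module.End ℂ _)
  refine ⟨q, hq.ne_zero, fun u hu v hv => ?_⟩
  have e3 (k : ℕ) (v : B) : (τ ^ k) (K ⟨u, hu⟩) v = G (u + v + k • a) := by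
    induction k generalizing v with
    | zero => simp [K]
    | succ k ih => exact (by rw [pow_succ']; rfl : _ = _).trans ((ih ⟨v + a, hB v v.2⟩).trans
        (congrArg G (by simp; ring)))
  rw [← Polynomial.aeval_def, Polynomial.aeval_eq_sum_range] at e2
  have := congrArg (fun f : Module.End ℂ (Submodule.span ℂ (Set.range K)) =>
    (f ⟨K ⟨u, hu⟩, Submodule.subset_span ⟨_, rfl⟩⟩).1 ⟨v, hv⟩) e2
  simp only [Module.End.pow_restrict _ inv] at this
  simpa [e3] using this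

lemma real_dir {G : E → ℂ} {n : ℕ} {A B : Set E} (h : Dep G n A B) {b : E} (hA : ∀ s : ℝ, s • b ∈ A)
    (hB : ∀ s : ℝ, s • b ∈ B) (hG : Tendsto (fun s : ℝ => G (s • b)) (cocompact ℝ) (𝓝 0)) :
    G 0 = 0 := by
  have t : Tendsto (fun M : ℝ => ∑ j : Fin (n + 1), ∑ k ∈ univ.erase j,
      ‖G ((((k : ℝ) - j) * M) • b)‖) atTop (𝓝 0) := by
    rw [← sum_const_zero (s := (univ : Finset (Fin (n + 1))))]
    refine tendsto_finsetSum _ fun j _ => ?_
    rw [← sum_const_zero (s := univ.erase j)]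
    refine tendsto_finsetSum _ fun k hk => tendsto_zero_iff_norm_tendsto_zero.1 (hG.comp ?_)
    exact (tendsto_cocompact_mul_left₀ (sub_ne_zero.2 (by
      exact_mod_cast Fin.val_ne_of_ne (ne_of_mem_erase hk)))).mono_left atTop_le_cocompact
  refine norm_le_zero_iff.1 (ge_of_tendsto' t fun M => ?_)
  obtain ⟨c, c0, hc⟩ := h (fun k => ((k : ℝ) * M) • b) fun k => hA _
  obtain ⟨j, -, hj⟩ := exists_max_image univ (fun k => ‖c k‖) univ_nonempty
  have j0 : 0 < ‖c j‖ := by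
    obtain ⟨k, hk⟩ := Function.ne_iff.1 c0
    exact (norm_pos_iff.2 hk).trans_le (hj k (mem_univ _))
  have := hc _ (hB (-(j * M)))
  simp only [← add_smul, ← sub_eq_add_neg, ← sub_mul] at this
  rw [← add_sum_erase _ _ (mem_univ j), sub_self, zero_mul, zero_smul, add_eq_zero_iff_eq_neg] at this
  refine le_trans (le_of_mul_le_mul_left ?_ j0) (single_le_sum (f := fun j : Fin (n + 1) =>
    ∑ k ∈ univ.erase j, ‖G ((((k : ℝ) - j) * M) • b)‖) (fun _ _ => by positivity) (mem_univ j))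
  rw [← norm_mul, this, norm_neg, mul_sum]
  exact norm_sum_le_of_le _ fun k _ => by rw [norm_mul]; gcongr; exact hj k (mem_univ _)

theorem core {G : E → ℂ} (hG : Continuous G) {n : ℕ}
    (h1 : ∀ a ≠ 0, ∀ q : Polynomial ℂ, q ≠ 0 → ∀ z₀, (∀ᶠ z in 𝓝 z₀,
      ∑ k ∈ range (q.natDegree + 1), q.coeff k * G (z + k • a) = 0) → G 0 = 0)
    (h2 : ∀ b : Fin 3 → ℝ, b ≠ 0 → Tendsto (fun s : ℝ => G (s • fun i => (b i : ℂ))) (cocompact ℝ) (𝓝 0))
    (P Q : MP) (P0 : P ≠ 0) (Q0 : Q ≠ 0) (Pz : 0 ∈ V P) (Qz : 0 ∈ V Q) (h : Dep G n (V P) (V Q)) :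
    G 0 = 0 := by
  induction hd : P.totalDegree + Q.totalDegree using Nat.strong_induction_on generalizing P Q with
  | _ d ih =>
  by_cases iP : Irreducible P
  swap
  · obtain ⟨P', a, b, c, e⟩ := red P0 Pz iP
    exact ih _ (by omega) P' Q a Q0 b Qz (fun u hu => h u fun k => e (hu k)) rfl
  by_cases iQ : Irreducible Q
  swap
  · obtain ⟨Q', a, b, c, e⟩ := red Q0 Qz iQ
    exact ih _ (by omega) P Q' P0 a Pz b
      (fun u hu => (h u hu).imp fun c hc => ⟨hc.1, fun v hv => hc.2 v (e hv)⟩) rfl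
  by_cases tv : ∃ u ∈ V P, ∃ v ∈ V Q,
    LinearIndependent ℂ ![fun i => eval u (pderiv i P), fun i => eval v (pderiv i Q)]
  · obtain ⟨u, hu, v, hv, tv⟩ := tv
    choose w w1 w2 w3 using fun m : ℕ => unbdd (Q := aeval (fun i => -X i) Q) Pz
      (by rw [eval_aev]; simpa [V, Pi.zero_def] using Qz) m
    simp only [eval_aev, map_neg, eval_X] at w3
    obtain ⟨σ, k1, a, a0, -, k2, -⟩ := normalize (c := w) fun m e =>
      (w1 m).not_ge (by simp [e])
    have k3 : Tendsto (fun m => ((‖w (σ m)‖ : ℂ))⁻¹) atTop (𝓝 0) := by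
      simpa [Function.comp_def] using (tendsto_inv_atTop_zero.comp ((tendsto_atTop_mono
        (fun m => (w1 m).le) tendsto_natCast_atTop_atTop).comp k1.tendsto_atTop)).ofReal
    obtain ⟨σ1, l1, P', l2, l3, l4, l5, l6⟩ := lim P0 (fun m => w2 (σ m)) k3 k2
    obtain ⟨σ2, n1, Q', n2, n3, n4, n5, n6⟩ := lim Q0 (w := fun m => -w (σ (σ1 m))) (fun m => w3 _)
      (k3.comp l1.tendsto_atTop) (a := -a) (by simpa using (k2.comp l1.tendsto_atTop).neg)
    by_cases lt : P'.totalDegree + Q'.totalDegree < d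
    · refine ih _ lt P' Q' l2 n2 l3 n3 (Dep.lim hG (A := fun m => {y | y + w (σ (σ1 (σ2 m))) ∈ V P})
        (fun m u hu => (h _ hu).imp fun c hc => ⟨hc.1, fun v hv => ?_⟩)
        (fun z hz U hU => n1.tendsto_atTop.eventually (l4 z hz U hU)) n4) rfl
      simpa [add_add_add_comm] using hc.2 _ hv
    obtain ⟨q, q0, hq⟩ := recur h (a := a)
      (fun u hu => by simpa [V] using (l6.resolve_left (by omega) u 1).trans hu)
      (fun u hu => by simpa [V] using (n6.resolve_left (by omega) u (-1)).trans hu)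
    exact h1 a a0 q q0 _ ((opn hu hv tv univ_mem univ_mem).mono fun z ⟨x, hx, y, hy, e⟩ =>
      e ▸ hq x hx.2 y hy.2)
  push Not at tv
  have sm {P : MP} (iP : Irreducible P) (Pz : 0 ∈ V P) :
      ∃ u ∈ V P, (fun i => eval u (pderiv i P)) ≠ 0 := by
    by_contra! k
    exact iP.ne_zero (poly_zero fun z => by
      simpa using (divz iP (b := z) (fun u hu => by simp [grad_apply, congrFun (k u hu)]) 0 1).trans Pz)
  obtain ⟨u, hu, u0⟩ := sm iP Pz
  obtain ⟨v, hv, v0⟩ := sm iQ Qz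
  obtain ⟨b, hb, b0⟩ := (Submodule.ne_bot_iff _).1 (LinearMap.ker_ne_bot_of_finrank_lt
    (f := ((grad Q v).restrictScalars ℝ).toLinearMap ∘ₗ Complex.ofRealAm.toLinearMap.compLeft (Fin 3))
    (by simp))
  replace hb : grad Q v (fun i => (b i : ℂ)) = 0 := hb
  have g1 (x) (hx : x ∈ V P) : grad P x (fun i => (b i : ℂ)) = 0 := by
    obtain ⟨c, hc⟩ : ∃ c : ℂ, c • (fun i => eval v (pderiv i Q)) = fun i => eval x (pderiv i P) := by
      simpa [linearIndependent_fin2, v0] using tv x hx v hv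
    rw [grad_apply] at hb ⊢
    simp [← congrFun hc, mul_assoc, ← mul_sum, hb]
  have g2 (y) (hy : y ∈ V Q) : grad Q y (fun i => (b i : ℂ)) = 0 := by
    by_cases y0 : (fun i => eval y (pderiv i Q)) = 0
    · simp [grad_apply, congrFun y0]
    obtain ⟨c, hc⟩ : ∃ c : ℂ, c • (fun i => eval y (pderiv i Q)) = fun i => eval u (pderiv i P) := by
      simpa [linearIndependent_fin2, y0] using tv u hu y hy
    have := g1 u hu
    simp only [grad_apply, ← congrFun hc, Pi.smul_apply, smul_eq_mul, mul_assoc, ← mul_sum] at this ⊢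
    exact (mul_eq_zero.1 this).resolve_left fun e => u0 (by simp [← hc, e])
  exact real_dir h (fun s => by simpa [V] using (divz iP g1 0 s).trans Pz)
    (fun s => by simpa [V] using (divz iQ g2 0 s).trans Qz) (h2 b b0)

end Pool.Agent.H.MP_7c460f_an
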