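import Pool.Agent.H.MP_7c460f_an.C

open MvPolynomial Filter Topology Finset MeasureTheory Complex

namespace Pool.Agent.H.MP_7c460f_an

abbrev R3 := Fin 3 → ℝ

noncomputable def ex (z : E) (x : R3) : ℂ := exp (I * ∑ i, z i * (x i : ℂ))

lemma ex_add (z w : E) (x : R3) : ex (z + w) x = ex z x * ex w x := by
  simp [ex, add_mul, sum_add_distrib, mul_add, exp_add]

lemma ex_nsmul (k : ℕ) (w : E) (x : R3) : ex (k • w) x = ex w x ^ k := by
  induction k with
  | zero => simp [ex]
  | succ k ih => rw [succ_nsmul, ex_add, ih, pow_succ]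

lemma ex_cont : Continuous ex.uncurry := by unfold ex Function.uncurry; fun_prop

lemma ex_cont' (z : E) : Continuous (ex z) := by unfold ex; fun_prop

variable {μ : Measure R3} {K : Set R3} {φ : R3 → ℂ}

lemma intg (hK : IsCompact K) (hμ : ∀ᵐ x ∂μ, x ∈ K) (hφ : Integrable φ μ) {g : R3 → ℂ}
    (hg : Continuous g) : Integrable (fun x => φ x * g x) μ := by
  obtain ⟨B, hB⟩ := hK.exists_bound_of_continuousOn hg.continuousOn
  exact hφ.mul_bdd hg.aestronglyMeasurable (hμ.mono hB)

lemma ldiff (hK : IsCompact K) (hμ : ∀ᵐ x ∂μ, x ∈ K) (hφ : Integrable φ μ) :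
    Differentiable ℂ fun z : E => ∫ x, φ x * ex z x ∂μ := fun z => by
  let l (x : R3) : E →L[ℂ] ℂ := I • ∑ i, (x i : ℂ) • ContinuousLinearMap.proj i
  have c : Continuous fun p : E × R3 => ex p.1 p.2 • l p.2 := ex_cont.smul (by unfold l; fun_prop)
  obtain ⟨B, hB⟩ := ((isCompact_closedBall z 1).prod hK).exists_bound_of_continuousOn c.continuousOn
  refine (hasFDerivAt_integral_of_dominated_of_fderiv_le (F' := fun z x => φ x • ex z x • l x)
    (Metric.closedBall_mem_nhds z one_pos) (.of_forall fun z => (intg hK hμ hφ (ex_cont' z)).1)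
    (intg hK hμ hφ (ex_cont' z)) (hφ.1.smul (c.comp (.prodMk_right z)).aestronglyMeasurable)
    (hμ.mono fun x hx y hy => ?_) (hφ.norm.mul_const B) (.of_forall fun x y _ => ?_)).differentiableAt
  · rw [norm_smul]
    exact mul_le_mul_of_nonneg_left (hB (y, x) ⟨hy, hx⟩) (norm_nonneg _)
  · have e (y : E) : ex y x = exp (l x y) := by simp [ex, l, mul_comm]
    simp only [e]
    exact (l x).hasFDerivAt.cexp.const_mul _

lemma inj_re {u : R3 → ℝ} (hu : Integrable u μ)
    (h : ∀ L : StrongDual ℝ R3, ∫ x, u x * exp (L x * I) ∂μ = 0) : u =ᵐ[μ] 0 := by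
  have := isFiniteMeasure_withDensity_ofReal hu.2
  have := isFiniteMeasure_withDensity_ofReal hu.neg.2
  have m := hu.1.aemeasurable.ennreal_ofReal
  have m' := hu.neg.1.aemeasurable.ennreal_ofReal
  have := (withDensity_eq_iff m m' hu.lintegral_lt_top.ne).1 (Measure.ext_of_charFunDual
    (funext fun L => by
      have i {u : R3 → ℝ} (hu : Integrable u μ) :
          Integrable (fun x => (ENNReal.ofReal (u x)).toReal • exp (L x * I)) μ :=
        hu.pos_part.ofReal.mul_bdd (c := 1) (Continuous.aestronglyMeasurable (by fun_prop))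
          (.of_forall fun x => (norm_exp_ofReal_mul_I _).le)
      rw [charFunDual_apply, charFunDual_apply, integral_withDensity_eq_integral_toReal_smul₀ m
        (by simp), integral_withDensity_eq_integral_toReal_smul₀ m' (by simp), ← sub_eq_zero,
        ← integral_sub (i hu) (i hu.neg), ← h L]
      congr 1 with x
      rw [← sub_smul, ENNReal.toReal_ofReal', ENNReal.toReal_ofReal', Pi.neg_apply,
        max_zero_sub_max_neg_zero_eq_self, real_smul]))
  filter_upwards [this] with x hx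
  have := congrArg ENNReal.toReal hx
  rw [ENNReal.toReal_ofReal', ENNReal.toReal_ofReal', ← sub_eq_zero, Pi.neg_apply,
    max_zero_sub_max_neg_zero_eq_self] at this
  exact this

lemma inj (hK : IsCompact K) (hμ : ∀ᵐ x ∂μ, x ∈ K) (hφ : Integrable φ μ) {z₀ : E}
    (h : ∀ᶠ z in 𝓝 z₀, ∫ x, φ x * ex z x ∂μ = 0) : φ =ᵐ[μ] 0 := by
  have h1 (z : E) : ∫ x, φ x * ex z x ∂μ = 0 := by
    have d : Differentiable ℂ fun t : ℂ => z₀ + t • (z - z₀) := by fun_prop
    simpa using AnalyticOnNhd.eqOn_zero_of_preconnected_of_eventuallyEq_zero (U := Set.univ)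
      (fun t _ => ((ldiff hK hμ hφ).comp d).analyticAt t) isPreconnected_univ (z₀ := 0) trivial
      ((d.continuous.tendsto' 0 z₀ (by simp)).eventually h) (Set.mem_univ 1)
  have h2 (L : StrongDual ℝ R3) : ∫ x, φ x * exp (L x * I) ∂μ = 0 := by
    rw [← h1 fun i => L (Pi.single i 1)]
    congr 1 with x
    rw [ex, mul_comm I]
    congr 3
    conv_lhs => rw [pi_eq_sum_univ' x]
    simp [mul_comm]
  have h3 (L : StrongDual ℝ R3) : ∫ x, starRingEnd ℂ (φ x) * exp (L x * I) ∂μ = 0 := by
    have := congrArg (starRingEnd ℂ) (h2 (-L))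
    simpa [← integral_conj, ← exp_conj] using this
  have i (L : StrongDual ℝ R3) := intg hK hμ hφ (g := fun x => exp (L x * I)) (by fun_prop)
  have i' (L : StrongDual ℝ R3) := intg hK hμ (conjCLE.integrable_comp_iff.2 hφ)
    (g := fun x => exp (L x * I)) (by fun_prop)
  simp only [conjCLE_apply] at i'
  filter_upwards [inj_re hφ.re fun L => by
      simp only [RCLike.re_to_complex, re_eq_add_conj, div_mul_eq_mul_div, add_mul, integral_div]
      rw [integral_add (i L) (i' L), h2, h3]; simp, inj_re hφ.im fun L => by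
      simp only [RCLike.im_to_complex, im_eq_sub_conj, div_mul_eq_mul_div, sub_mul, integral_div]
      rw [integral_sub (i L) (i' L), h2, h3]; simp] with x h1 h2
  exact Complex.ext h1 h2

lemma null {a : E} (ha : a ≠ 0) {q : Polynomial ℂ} (hq : q ≠ 0) :
    ∀ᵐ x : R3, q.eval (ex a x) ≠ 0 := by
  let l : R3 →ₗ[ℝ] ℂ := I • ∑ i, a i • (ofRealAm.toLinearMap ∘ₗ LinearMap.proj i)
  have e (x) : ex a x = exp (l x) := by simp [ex, l]
  have := (measure_biUnion_null_iff (μ := (volume : Measure R3)) (s := fun w => l ⁻¹' {w})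
    (q.finite_setOfPred_isRoot hq).countable.preimage_cexp).2 fun w _ =>
    measure_mono_null (fun x hx => by simpa [AffineSubspace.mem_mk'] using sub_eq_zero.2 hx)
    (Measure.addHaar_affineSubspace volume ((AffineSubspace.mk' w ⊥).comap l.toAffineMap) fun k => by
      have (x : R3) : l x = w := by
        simpa [AffineSubspace.mem_mk', sub_eq_zero] using k.ge (AffineSubspace.mem_top _ _ x)
      exact ha (funext fun i => by simpa [l, Pi.single_apply, apply_ite ((↑) : ℝ → ℂ)] using
        (this (Pi.single i 1)).trans (this 0).symm))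
  exact measure_mono_null (fun x hx => by simpa [e] using hx) this

lemma rl {D : Set R3} (hD : MeasurableSet D) (φ : R3 → ℂ) {b : R3} (hb : b ≠ 0) :
    Tendsto (fun s : ℝ => ∫ x in D, φ x * ex (s • fun i => (b i : ℂ)) x) (cocompact ℝ) (𝓝 0) := by
  let l : StrongDual ℝ R3 := (-(2 * Real.pi)⁻¹) • ∑ i, b i • ContinuousLinearMap.proj i
  have l0 : l ≠ 0 := fun h => hb (funext fun i => by
    simpa [l, Pi.single_apply] using congrArg (· (Pi.single i 1)) h)
  refine ((tendsto_integral_exp_smul_cocompact (D.indicator φ) volume).comp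
    (isClosedEmbedding_smul_left (𝕜 := ℝ) l0).tendsto_cocompact).congr fun s => ?_
  rw [← integral_indicator hD]
  refine congrArg _ (funext fun x => ?_)
  rw [Set.indicator_mul_left, Circle.smul_def, smul_eq_mul, mul_comm, Real.fourierChar_apply, ex]
  congr 2
  simp [l, mul_assoc, ← mul_sum]
  field_simp

abbrev W := EuclideanSpace ℂ (Fin 3)

lemma pos {P : MP} (h0 : P ≠ 0) {z : W} (hz : eval z.ofLp P = 0) {U : Set W} (hU : U ∈ 𝓝 z) :
    Measure.hausdorffMeasure 4 ({z : W | eval z.ofLp P = 0} ∩ U) ≠ 0 := fun k => by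
  obtain ⟨x, hx⟩ := not_forall.1 (mt poly_zero h0)
  set e : W := WithLp.toLp 2 x - z with he
  have e0 : e ≠ 0 := fun h => hx (by rw [← hz, ← sub_eq_zero.1 h])
  have c : Continuous fun p : W × ℂ => p.1 + p.2 • e := by fun_prop
  obtain ⟨N, hN, B, hB, h⟩ := mem_prod_iff.1
    (nhds_prod_eq (x := z) (y := (0 : ℂ)) ▸ c.tendsto' (z, 0) z (by simp) hU)
  obtain ⟨ε, ε0, hε⟩ := Metric.nhds_basis_closedBall.mem_iff.1 hB
  have hw := hurwitz (G := fun (y : W) s => eval (y + s • e).ofLp P) (x := z) (t := 1)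
    ((diff P).continuous.comp ((PiLp.continuous_ofLp _ _).comp c))
    (fun y => (diff P).comp (by simp only [WithLp.ofLp_add, WithLp.ofLp_smul]; fun_prop))
    (by simpa) (by simpa [he]) ε0
  have := (ℂ ∙ e).closed_of_finiteDimensional
  let _ := borel (W ⧸ ℂ ∙ e)
  have : BorelSpace (W ⧸ ℂ ∙ e) := ⟨rfl⟩
  have r : Module.finrank ℝ (W ⧸ ℂ ∙ e) = 4 := by
    have := (ℂ ∙ e).finrank_quotient_add_finrank
    rw [finrank_span_singleton e0, finrank_euclideanSpace_fin] at this
    rw [finrank_real_of_complex]; omega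
  have H := isAddHaarMeasure_hausdorffMeasure (E := W ⧸ ℂ ∙ e)
  rw [r, Nat.cast_ofNat] at H
  have L := (ℂ ∙ e).mkQL.lipschitz.hausdorffMeasure_image_le (d := 4) (by norm_num)
    ({z : W | eval z.ofLp P = 0} ∩ U)
  rw [k, mul_zero] at L
  refine ((Measure.measure_pos_of_mem_nhds _ ((ℂ ∙ e).isOpenMap_mkQ.image_mem_nhds
    (inter_mem hN hw))).trans_le (measure_mono ?_)).not_ge L
  rintro _ ⟨y, ⟨h1, s, h2, h3⟩, rfl⟩
  refine ⟨y + s • e, ⟨h3, h (a := (y, s)) ⟨h1, hε (mem_closedBall_zero_iff.2 h2)⟩⟩, ?_⟩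
  simp

lemma dep_meas {m₁ m₂ : Measure W} [IsFiniteMeasure m₁] {A B : Set W}
    (h1 : ∀ z ∈ A, ∀ U ∈ 𝓝 z, m₁ U ≠ 0) (h2 : ∀ z ∈ B, ∀ U ∈ 𝓝 z, m₂ U ≠ 0) {F : W → ℂ}
    (hF : Continuous F) {n : ℕ} {g : Fin n → W → ℂ} (h : ∀ h : W → ℂ, MemLp h 2 m₁ → ∃ c : Fin n → ℂ,
      (fun u₂ => ∫ u₁, h u₁ * F (u₁ + u₂) ∂m₁) =ᵐ[m₂] fun u₂ => ∑ k, c k * g k u₂)
    (u : Fin (n + 1) → W) (hu : ∀ k, u k ∈ A) :
    ∃ c : Fin (n + 1) → ℂ, c ≠ 0 ∧ ∀ v ∈ B, ∑ k, c k * F (u k + v) = 0 := by
  let T (k) (m : ℕ) (v : W) := ⨍ x in Metric.closedBall (u k) (1 / (m + 1)), F (x + v) ∂m₁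
  have (m : ℕ) : ∃ c : Fin (n + 1) → ℂ, c ≠ 0 ∧ ∀ v ∈ B, ∑ k, c k * T k m v = 0 := by
    choose c hc using fun k => h _ (memLp_indicator_const 2
      (Metric.isClosed_closedBall (x := u k) (ε := 1 / (m + 1))).measurableSet
      ((m₁.real (Metric.closedBall (u k) (1 / (m + 1))))⁻¹ : ℂ) (.inr (measure_ne_top _ _)))
    obtain ⟨l, l1, l0⟩ := Fintype.not_linearIndependent_iff.1
      (mt LinearIndependent.fintype_card_le_finrank (by simp : ¬ _ ≤ Module.finrank ℂ (Fin n → ℂ)) :
        ¬ LinearIndependent ℂ c)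
    refine ⟨l, Function.ne_iff.2 l0, fun v hv => by_contra fun k => h2 v hv _
      (ContinuousAt.eventually_ne (g := fun v => ∑ k, l k * T k m v) (Continuous.continuousAt ?_) k) ?_⟩
    · refine continuous_finsetSum _ fun k _ => continuous_const.mul ?_
      simp only [T, setAverage_eq]
      exact (continuous_parametric_integral_of_continuous (f := fun v x => F (x + v))
        (by fun_prop) (isCompact_closedBall _ _)).const_smul _
    refine measure_mono_null (fun v hv => ?_) (ae_all_iff.2 hc)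
    refine fun e => hv ?_
    have (k : Fin (n + 1)) : T k m v = ∑ j, c k j * g j v := by
      refine .trans ?_ (e k)
      simp only [T, setAverage_eq]
      rw [real_smul, ← integral_const_mul, ← integral_indicator Metric.isClosed_closedBall.measurableSet]
      simp [Set.indicator_mul_left]
    simp only [this, mul_sum, ← mul_assoc]
    rw [sum_comm]
    simpa [← sum_mul] using sum_eq_zero fun j _ => by
      rw [show ∑ k, l k * c k j = 0 by simpa using congrFun l1 j, zero_mul]
  choose c c0 hc using this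
  obtain ⟨c', k1, k2⟩ := dep_lim (B := B) (φ := fun m k v => T k m v) (ψ := fun k v => F (u k + v)) c0
    (fun v => .of_forall fun m => hc m v v.2) fun k v => Metric.tendsto_nhds.2 fun ε hε => by
      obtain ⟨δ, δ0, hδ⟩ := Metric.nhds_basis_closedBall.eventually_iff.1
        ((hF.comp (continuous_add_const v.1)).tendsto (u k) (Metric.closedBall_mem_nhds _ (half_pos hε)))
      filter_upwards [tendsto_one_div_add_atTop_nhds_zero_nat.eventually (ge_mem_nhds δ0)] with m hm
      refine (Metric.mem_closedBall.1 ((convex_closedBall _ _).set_average_mem Metric.isClosed_closedBall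
        (h1 _ (hu k) _ (Metric.closedBall_mem_nhds _ (by positivity))) (measure_ne_top _ _)
        ((ae_restrict_mem Metric.isClosed_closedBall.measurableSet).mono fun x hx =>
          hδ (Metric.closedBall_subset_closedBall hm hx)) ?_)).trans_lt (half_lt_self hε)
      exact ContinuousOn.integrableOn_compact (isCompact_closedBall _ _) (by fun_prop)
  exact ⟨c', k1, fun v hv => k2 ⟨v, hv⟩⟩

end Pool.Agent.H.MP_7c460f_an
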