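import Pool.Agent.H.MP_7c460f_an.D

open Filter Topology Finset MeasureTheory

namespace Pool.Agent.H.MP_7c460f_an

theorem final :
  ∀ (D : Set (Fin 3 → ℝ)), IsOpen D → IsConnected D → Bornology.IsBounded D →
  ∀ (f : (Fin 3 → ℝ) → ℂ), MemLp f 2 (volume.restrict D) →
  ¬ (f =ᵐ[volume.restrict D] 0) →
  ∀ (F : EuclideanSpace ℂ (Fin 3) → ℂ),
  (∀ z, F z = ∫ x in D, f x * Complex.exp (Complex.I * ∑ i, WithLp.ofLp z i * (x i : ℂ))) →
  ∀ (L₁ L₂ : MvPolynomial (Fin 3) ℂ), 1 ≤ L₁.totalDegree → 1 ≤ L₂.totalDegree →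
  ∀ (V₁ V₂ : Set (EuclideanSpace ℂ (Fin 3))),
  V₁ = {z | MvPolynomial.eval (WithLp.ofLp z) L₁ = 0} →
  V₂ = {z | MvPolynomial.eval (WithLp.ofLp z) L₂ = 0} →
  ∀ (ρ₁ ρ₂ : EuclideanSpace ℂ (Fin 3) → ℝ),
  ContDiff ℝ ((⊤ : ℕ∞) : WithTop ℕ∞) ρ₁ → ContDiff ℝ ((⊤ : ℕ∞) : WithTop ℕ∞) ρ₂ →
  (∀ z, 0 < ρ₁ z) → (∀ z, 0 < ρ₂ z) →
  (∀ N : ℕ, ∃ C : ℝ, ∀ z, ρ₁ z * (1 + ‖z‖) ^ N ≤ C) →
  (∀ N : ℕ, ∃ C : ℝ, ∀ z, ρ₂ z * (1 + ‖z‖) ^ N ≤ C) →
  ∀ (m₁ m₂ : Measure (EuclideanSpace ℂ (Fin 3))),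
  m₁ = ((Measure.hausdorffMeasure (4 : ℝ)).restrict V₁).withDensity (fun z => ENNReal.ofReal (ρ₁ z)) →
  m₂ = ((Measure.hausdorffMeasure (4 : ℝ)).restrict V₂).withDensity (fun z => ENNReal.ofReal (ρ₂ z)) →
  (∀ x : Fin 3 → ℝ, MemLp (fun z : EuclideanSpace ℂ (Fin 3) =>
      Complex.exp (Complex.I * ∑ i, WithLp.ofLp z i * (x i : ℂ))) 2 m₁) →
  (∀ x : Fin 3 → ℝ, MemLp (fun z : EuclideanSpace ℂ (Fin 3) =>
      Complex.exp (Complex.I * ∑ i, WithLp.ofLp z i * (x i : ℂ))) 2 m₂) →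
  (∀ h : EuclideanSpace ℂ (Fin 3) → ℂ, MemLp h 2 m₁ →
      (∀ᵐ u₂ ∂m₂, Integrable (fun u₁ => h u₁ * F (u₁ + u₂)) m₁) ∧
      MemLp (fun u₂ => ∫ u₁, h u₁ * F (u₁ + u₂) ∂m₁) 2 m₂) →
  (∃ p₁ ∈ V₁, ∃ p₂ ∈ V₂, ∃ Q₁ Q₂ : MvPolynomial (Fin 3) ℂ,
      ∃ U₁ U₂ : Set (EuclideanSpace ℂ (Fin 3)),
      IsOpen U₁ ∧ IsOpen U₂ ∧ p₁ ∈ U₁ ∧ p₂ ∈ U₂ ∧
      V₁ ∩ U₁ = {z | MvPolynomial.eval (WithLp.ofLp z) Q₁ = 0} ∩ U₁ ∧
      V₂ ∩ U₂ = {z | MvPolynomial.eval (WithLp.ofLp z) Q₂ = 0} ∩ U₂ ∧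
      LinearIndependent ℂ
        ![fun i : Fin 3 => MvPolynomial.eval (WithLp.ofLp p₁) (MvPolynomial.pderiv i Q₁),
          fun i : Fin 3 => MvPolynomial.eval (WithLp.ofLp p₂) (MvPolynomial.pderiv i Q₂)]) →
  ∀ (n : ℕ) (g : Fin n → EuclideanSpace ℂ (Fin 3) → ℂ),
  ∃ h : EuclideanSpace ℂ (Fin 3) → ℂ, MemLp h 2 m₁ ∧
    ∀ c : Fin n → ℂ,
      ¬ ((fun u₂ => ∫ u₁, h u₁ * F (u₁ + u₂) ∂m₁) =ᵐ[m₂] fun u₂ => ∑ k, c k * g k u₂) := by
  rintro D hD - hb f hf f0 F hF L₁ L₂ d1 d2 _ _ rfl rfl ρ₁ ρ₂ c1 c2 r1 r2 - - m₁ m₂ e1 e2 i1 - -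
    ⟨p₁, a1, p₂, a2, Q₁, Q₂, U₁, U₂, o1, o2, b1, b2, q1, q2, tv⟩ n g
  by_contra! h
  have n1 : L₁ ≠ 0 := by rintro rfl; simp at d1
  have n2 : L₂ ≠ 0 := by rintro rfl; simp at d2
  have sup {L : MP} (h0 : L ≠ 0) {ρ : W → ℝ} (c : Continuous ρ) (r : ∀ z, 0 < ρ z) (z : W)
      (hz : z ∈ {z : W | MvPolynomial.eval z.ofLp L = 0}) (U) (hU : U ∈ 𝓝 z) :
      ((Measure.hausdorffMeasure 4).restrict {z : W | MvPolynomial.eval z.ofLp L = 0}).withDensity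
        (fun z => ENNReal.ofReal (ρ z)) U ≠ 0 := fun k => by
    have cl : IsClosed {z : W | MvPolynomial.eval z.ofLp L = 0} :=
      isClosed_eq ((diff L).continuous.comp (PiLp.continuous_ofLp _ _)) continuous_const
    rw [withDensity_apply_eq_zero c.measurable.ennreal_ofReal,
      Measure.restrict_apply' cl.measurableSet] at k
    refine pos h0 hz hU (measure_mono_null (fun x hx => ?_) k)
    exact ⟨⟨by simpa using r x, hx.2⟩, hx.1⟩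
  have : IsFiniteMeasure m₁ := by
    simpa [memLp_const_iff, isFiniteMeasure_iff] using i1 0
  have dep := dep_meas (F := F) (e1 ▸ sup n1 c1.continuous r1) (e2 ▸ sup n2 c2.continuous r2)
    (h := h)
  have hK := hb.isCompact_closure
  have hμ : ∀ᵐ x ∂volume.restrict D, x ∈ closure D :=
    (ae_restrict_mem hD.measurableSet).mono fun x hx => subset_closure hx
  have : IsFiniteMeasure (volume.restrict D) := ⟨by simpa using hb.measure_lt_top⟩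
  have hφ := hf.integrable one_le_two
  have eF (z : E) : F (WithLp.toLp 2 z) = ∫ x in D, f x * ex z x := hF _
  have cF : Continuous F := by
    rw [funext hF]; exact (ldiff hK hμ hφ).continuous.comp (PiLp.continuous_ofLp _ _)
  have ct := PiLp.continuous_toLp 2 fun _ : Fin 3 => ℂ
  refine f0 (inj hK hμ hφ ((opn (q1.le ⟨a1, b1⟩).1 (q2.le ⟨a2, b2⟩).1 tv
    (ct.continuousAt.preimage_mem_nhds (o1.mem_nhds b1))
    (ct.continuousAt.preimage_mem_nhds (o2.mem_nhds b2))).mono fun ξ ⟨x, hx, y, hy, e⟩ => ?_))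
  have := core (G := fun z => ∫ x in D, f x * ex (ξ + z) x) (n := n)
    ((ldiff hK hμ hφ).continuous.comp (continuous_const_add ξ)) (fun a ha q hq z₀ hz => ?_)
    (fun b hb => by simpa [ex_add, mul_assoc] using rl hD.measurableSet (fun x => f x * ex ξ x) hb)
    (tr x L₁) (tr y L₂) (fun h => n1 (poly_zero fun z => by
      simpa [eval_tr] using congrArg (MvPolynomial.eval (z - x)) h)) (fun h => n2 (poly_zero fun z => by
      simpa [eval_tr] using congrArg (MvPolynomial.eval (z - y)) h))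
    (by simpa [V, eval_tr] using ((Set.ext_iff.1 q1 (WithLp.toLp 2 x)).2 ⟨hx.2, hx.1⟩).1)
    (by simpa [V, eval_tr] using ((Set.ext_iff.1 q2 (WithLp.toLp 2 y)).2 ⟨hy.2, hy.1⟩).1)
    fun u hu => (dep cF (fun k => WithLp.toLp 2 (u k + x)) fun k => by
      simpa [V, eval_tr] using hu k).imp fun c hc => ⟨hc.1, fun v hv => by
        rw [← hc.2 (WithLp.toLp 2 (v + y)) (by simpa [V, eval_tr] using hv)]
        refine sum_congr rfl fun k _ => ?_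
        rw [← WithLp.toLp_add, eF, show u k + x + (v + y) = ξ + (u k + v) by rw [← e]; ring]⟩
  · simpa using this
  have c (k : ℕ) : Continuous fun x => q.coeff k * ex ξ x * ex a x ^ k :=
    (continuous_const.mul (ex_cont' ξ)).mul ((ex_cont' a).pow k)
  refine (f0 ?_).elim
  filter_upwards [ae_restrict_of_ae (null ha hq), inj hK hμ (intg hK hμ hφ
    (continuous_finsetSum (range (q.natDegree + 1)) fun k _ => c k)) (hz.mono fun z h => by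
      simp only [mul_sum, sum_mul]
      rw [integral_finsetSum _ fun k _ => intg hK hμ (intg hK hμ hφ (c k)) (ex_cont' z), ← h]
      refine sum_congr rfl fun k _ => ?_
      rw [← integral_const_mul]
      congr 1 with x
      rw [ex_add, ex_add, ex_nsmul]; ring)] with x h1 h2
  simp only [mul_right_comm _ (ex ξ x), ← sum_mul, ← Polynomial.eval_eq_sum_range] at h2
  exact (mul_eq_zero.1 h2).resolve_right (mul_ne_zero h1 (Complex.exp_ne_zero _))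

end Pool.Agent.H.MP_7c460f_an
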